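import Mathlib
import Pool.Agent.H903Z.IGDefs
import Pool.Agent.H903Z.IGProof

set_option autoImplicit false

namespace Pool.Agent.Results.MP_540c93_co.ANoFiniteFamily

open Pool.Agent.H903Z.IG

/-- There is no finite family of finite graphs such that a nonempty finite graph is an `i`-graph
exactly when it has no induced subgraph isomorphic to a member of the family. -/
theorem result : ¬ ∃ 𝓕 : Set (Σ s : ℕ, SimpleGraph (Fin s)), 𝓕.Finite ∧
    ∀ (n : ℕ), 0 < n → ∀ H : SimpleGraph (Fin n),
      (IsIGraph H ↔ ∀ F ∈ 𝓕, IsEmpty (F.2 ↪g H)) :=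
  Pool.Agent.H903Z.IG.main

end Pool.Agent.Results.MP_540c93_co.ANoFiniteFamily
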